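import Mathlib
import Pool.Agent.P.MP_9b1016_an.Defs
import Pool.Agent.P.MP_9b1016_an.Approx

/-!
Every semiprojective Banach lattice is `ℓ`-open.
-/

set_option autoImplicit false

namespace Pool.Agent.Results.MP_9b1016_an.Q1

open Pool.Agent.P.MP_9b1016_an

universe u v

theorem result (A : Type u) [NormedAddCommGroup A] [NormedSpace ℝ A] [CompleteSpace A] [Lattice A]
    [IsOrderedAddMonoid A] [PosSMulMono ℝ A] [HasSolidNorm A] :
    Semiprojective.{u, v} A → LOpen.{u, v} A := by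
  intro hA B _ _ _ _ _ _ _ _ I hI
  suffices h : ∀ φ : A → B ⧸ I, IsQuotHom I φ 1 → Liftable I φ by
    convert isOpen_univ
    exact Set.eq_univ_of_forall fun φ => h φ.1 φ.2
  intro φ hφ ε hε
  obtain ⟨M, hs, hn, hI', hmono, hdense⟩ := exists_approx I hI.1 hI.2
  let K : ℕ → Submodule ℝ B := fun n => LinearMap.ker (M n : B →ₗ[ℝ] B)
  have hK : ∀ n x, x ∈ K n ↔ M n x = 0 := fun n x => Iff.rfl
  have hKI : ∀ n, IsClosedIdeal (K n) := by
    intro n
    refine ⟨fun x y hxy hy => ?_, (M n).isClosed_ker⟩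
    have h1 := mono_of_sup (M n) (hs n) hxy
    rw [map_abs_of_sup _ (hs n), map_abs_of_sup _ (hs n), (hK n y).1 hy, abs_zero] at h1
    exact eq_zero_of_abs_le h1
  have hcl : (I : Set B) = closure (⋃ n, (K n : Set B)) := by
    apply Set.Subset.antisymm
    · exact fun x hx => hdense x hx
    · refine closure_minimal (Set.iUnion_subset fun n x hx => ?_) hI.2
      have := hI' n x
      rwa [(hK n x).1 hx, sub_zero] at this
  obtain ⟨n, hn'⟩ := hA B K I hKI (monotone_nat_of_le_succ fun n x hx => hmono n x hx) hcl φ hφ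
  obtain ⟨ψ, ⟨hψl, hψs, hψn⟩, hψφ⟩ := hn' ε hε
  let L : (B ⧸ K n) →ₗ[ℝ] B := (K n).liftQ (M n : B →ₗ[ℝ] B) le_rfl
  have hL : ∀ b, L ((K n).mkQ b) = M n b := fun b => rfl
  have hLn : ∀ q, ‖L q‖ ≤ ‖q‖ := by
    intro q
    refine le_of_forall_pos_le_add fun δ hδ => ?_
    obtain ⟨b, hb, hlt⟩ := Submodule.Quotient.norm_mk_lt q hδ
    rw [← hb] at hlt ⊢
    exact (hn n b).trans hlt.le
  refine ⟨fun a => L (ψ a), ⟨⟨fun x y => ?_, fun c x => ?_⟩, fun x y => ?_, fun x => ?_⟩,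
    fun a => ?_⟩
  · rw [hψl.map_add, map_add]
  · rw [hψl.map_smul, map_smul]
  · obtain ⟨b, hb⟩ := (K n).mkQ_surjective (ψ x)
    obtain ⟨b', hb'⟩ := (K n).mkQ_surjective (ψ y)
    dsimp only
    rw [hψs x y b b' hb.symm hb'.symm, ← hb, ← hb', hL, hL, hL, hs]
  · exact (hLn _).trans (hψn x)
  · obtain ⟨b, hb⟩ := (K n).mkQ_surjective (ψ a)
    dsimp only
    rw [hψφ a b hb.symm, ← hb, hL]
    exact ((Submodule.Quotient.eq I).2 (hI' n b)).symm

end Pool.Agent.Results.MP_9b1016_an.Q1
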