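import Mathlib
import Pool.Agent.P.MP_9b1016_an.Defs
import Pool.Agent.P.MP_9b1016_an.Mult

/-!
Every `ℓ`-open Banach lattice is semiprojective.
-/

set_option autoImplicit false

namespace Pool.Agent.Results.MP_9b1016_an.Q2

open Pool.Agent.P.MP_9b1016_an Filter Topology

universe u v

section

variable {B : Type v} [NormedAddCommGroup B] [NormedSpace ℝ B] [CompleteSpace B] [Lattice B]
  [IsOrderedAddMonoid B] [PosSMulMono ℝ B] [HasSolidNorm B]

theorem mk_sup_congr {I : Submodule ℝ B} (hI : Solid I) {a a' b b' : B}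
    (ha : I.mkQ a = I.mkQ a') (hb : I.mkQ b = I.mkQ b') : I.mkQ (a ⊔ b) = I.mkQ (a' ⊔ b') := by
  have ha' := (Submodule.Quotient.eq I).1 ha
  have hb' := (Submodule.Quotient.eq I).1 hb
  refine (Submodule.Quotient.eq I).2 (hI.of_le ?_ (I.add_mem (hI.abs_mem ha') (hI.abs_mem hb')))
  calc |a ⊔ b - a' ⊔ b'| = |(a ⊔ b - a' ⊔ b) + (b ⊔ a' - b' ⊔ a')| := by
        rw [sup_comm b, sup_comm b']; congr 1; abel
    _ ≤ _ := (abs_add_le _ _).trans
        (add_le_add (abs_sup_sub_sup_le_abs _ _ _) (abs_sup_sub_sup_le_abs _ _ _))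

theorem solid_closure (I : ℕ → Submodule ℝ B) (J : Submodule ℝ B) (hI : ∀ n, Solid (I n))
    (hJ : (J : Set B) = closure (⋃ n, (I n : Set B))) : Solid J := by
  intro x y hxy hy
  change x ∈ (J : Set B)
  change y ∈ (J : Set B) at hy
  rw [hJ] at hy ⊢
  have hc : Continuous fun z : B => (x ⊓ |z|) ⊔ -|z| :=
    (continuous_const.inf cont_abs).sup cont_abs.neg
  have h1 := map_mem_closure hc hy (t := ⋃ n, (I n : Set B)) (by
    intro z hz
    obtain ⟨n, hn⟩ := Set.mem_iUnion.1 hz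
    refine Set.mem_iUnion.2 ⟨n, hI n _ z ?_ hn⟩
    rw [abs]
    refine sup_le (sup_le inf_le_right ?_) ?_
    · exact (neg_nonpos.2 (abs_nonneg z)).trans (abs_nonneg z)
    · rw [neg_le]; exact le_sup_right)
  have h2 : (x ⊓ |y|) ⊔ -|y| = x := by
    rw [inf_eq_left.2 ((le_abs_self x).trans hxy), sup_eq_left]
    rw [neg_le]; exact (neg_le_abs x).trans hxy
  simpa only [h2] using h1

variable {A : Type u} [NormedAddCommGroup A] [NormedSpace ℝ A] [Lattice A]

theorem isQuotHom_smul {J : Submodule ℝ B} (hJ : Solid J) {φ : A → B ⧸ J} (hφ : IsQuotHom J φ 1)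
    {t : ℝ} (h0 : 0 ≤ t) (h1 : t ≤ 1) : IsQuotHom J (fun a => t • φ a) 1 := by
  refine ⟨⟨fun x y => ?_, fun c x => ?_⟩, fun x y b b' hx hy => ?_, fun x => ?_⟩
  · rw [hφ.1.map_add, smul_add]
  · rw [hφ.1.map_smul, smul_comm]
  · obtain ⟨c, hc⟩ := J.mkQ_surjective (φ x)
    obtain ⟨c', hc'⟩ := J.mkQ_surjective (φ y)
    dsimp only at hx hy ⊢
    rw [hφ.2.1 x y c c' hc.symm hc'.symm, ← map_smul, smul_sup_of_nonneg h0]
    refine mk_sup_congr hJ ?_ ?_
    · rw [map_smul, hc, hx]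
    · rw [map_smul, hc', hy]
  · rw [norm_smul, Real.norm_of_nonneg h0]
    exact (mul_le_of_le_one_left (norm_nonneg _) h1).trans (hφ.2.2 x)

theorem isHom_smul {ψ : A → B} {c t : ℝ} (hψ : IsHom ψ c) (h0 : 0 ≤ t) :
    IsHom (fun a => t • ψ a) (t * c) := by
  refine ⟨⟨fun x y => ?_, fun c x => ?_⟩, fun x y => ?_, fun x => ?_⟩
  · rw [hψ.1.map_add, smul_add]
  · rw [hψ.1.map_smul, smul_comm]
  · dsimp only
    rw [hψ.2.1, smul_sup_of_nonneg h0]
  · rw [norm_smul, Real.norm_of_nonneg h0, mul_assoc]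
    exact mul_le_mul_of_nonneg_left (hψ.2.2 x) h0

theorem liftable_of_open {J : Submodule ℝ B} (hJ : Solid J)
    (hopen : IsOpen {φ : {φ : A → B ⧸ J // IsQuotHom J φ 1} | Liftable J φ.1})
    {φ : A → B ⧸ J} (hφ : IsQuotHom J φ 1) : Liftable J φ := by
  let g : unitInterval → {φ : A → B ⧸ J // IsQuotHom J φ 1} := fun t =>
    ⟨fun a => (t : ℝ) • φ a, isQuotHom_smul hJ hφ t.2.1 t.2.2⟩
  have hg : Continuous g := by
    refine Continuous.subtype_mk (continuous_pi fun a => ?_) _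
    exact continuous_subtype_val.smul continuous_const
  let S : Set unitInterval := {t | Liftable J fun a => (t : ℝ) • φ a}
  have hSo : IsOpen S := hopen.preimage hg
  have h0 : (0 : unitInterval) ∈ S := by
    intro ε hε
    refine ⟨fun _ => 0, ⟨⟨by simp, by simp⟩, by simp, fun x => ?_⟩, by simp⟩
    rw [norm_zero]; positivity
  have hSc : IsClosed S := by
    refine isClosed_of_closure_subset fun t ht => ?_
    rcases t.2.1.eq_or_lt with h | h
    · have : t = 0 := Subtype.ext h.symm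
      rwa [this]
    intro ε hε
    have hopen' : IsOpen {s : unitInterval | (1 + ε / 2) * (t : ℝ) < (1 + ε) * s} :=
      isOpen_lt continuous_const (continuous_const.mul continuous_subtype_val)
    obtain ⟨s, hs1, hs2⟩ := mem_closure_iff.1 ht _ hopen'
      (show (1 + ε / 2) * (t : ℝ) < (1 + ε) * t by nlinarith)
    have hs1' : (1 + ε / 2) * (t : ℝ) < (1 + ε) * s := hs1
    have hs0 : (0 : ℝ) < s := by
      by_contra hc
      have : (s : ℝ) = 0 := le_antisymm (not_lt.1 hc) s.2.1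
      rw [this] at hs1'
      nlinarith
    obtain ⟨ψ, hψ, hψφ⟩ := hs2 (ε / 2) (by positivity)
    have h2 := isHom_smul hψ (show 0 ≤ (t : ℝ) / s by positivity)
    refine ⟨fun a => ((t : ℝ) / s) • ψ a, ⟨h2.1, h2.2.1, fun x => (h2.2.2 x).trans ?_⟩,
      fun a => ?_⟩
    · refine mul_le_mul_of_nonneg_right ?_ (norm_nonneg _)
      rw [div_mul_eq_mul_div, div_le_iff₀ hs0]
      linarith
    · rw [map_smul, hψφ, smul_smul, div_mul_cancel₀ _ hs0.ne']
  have h1 : (1 : unitInterval) ∈ S := by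
    rw [IsClopen.eq_univ ⟨hSc, hSo⟩ ⟨0, h0⟩]; trivial
  simpa [S] using h1

end

theorem result (A : Type u) [NormedAddCommGroup A] [NormedSpace ℝ A] [CompleteSpace A] [Lattice A]
    [IsOrderedAddMonoid A] [PosSMulMono ℝ A] [HasSolidNorm A] :
    LOpen.{u, v} A → Semiprojective.{u, v} A := by
  intro hA B _ _ _ _ _ _ _ _ I J hI _ hJ φ hφ
  have hJs : Solid J := solid_closure I J (fun n => (hI n).1) hJ
  have hJc : IsClosed (J : Set B) := by rw [hJ]; exact isClosed_closure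
  have hl := liftable_of_open hJs (hA B J ⟨hJs, hJc⟩) hφ
  refine ⟨0, fun ε hε => ?_⟩
  obtain ⟨ψ, hψ, hψφ⟩ := hl ε hε
  refine ⟨fun a => (I 0).mkQ (ψ a),
    ⟨⟨fun x y => ?_, fun c x => ?_⟩, fun x y b b' hx hy => ?_, fun x => ?_⟩, fun a b hab => ?_⟩
  · rw [hψ.1.map_add, map_add]
  · rw [hψ.1.map_smul, map_smul]
  · dsimp only
    rw [hψ.2.1]
    exact mk_sup_congr (hI 0).1 hx hy
  · exact (Submodule.Quotient.norm_mk_le (I 0) (ψ x)).trans (hψ.2.2 x)
  · rw [← hψφ]
    refine (Submodule.Quotient.eq J).2 ?_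
    have h1 : ψ a - b ∈ I 0 := (Submodule.Quotient.eq _).1 hab
    change ψ a - b ∈ (J : Set B)
    rw [hJ]
    exact subset_closure (Set.mem_iUnion.2 ⟨0, h1⟩)

end Pool.Agent.Results.MP_9b1016_an.Q2
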